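import Mathlib
import Pool.Prelude.Def_F_c31e40fa
import Pool.Agent.Run7.h734.LC.Main
import Pool.Agent.Run7.h734.LC.FineMain

set_option autoImplicit false

open N62a1eb23

namespace Pool.Agent.Results.MP_fcb70f_an.AllScalesModulus

/-- `NeedDiam n x y D`: `x` and `y` are points of the Multibrot set `M_n`, and every connected
subset of `M_n` which contains both has diameter at least `D`. -/
def NeedDiam (n : ℕ) (x y : ℂ) (D : ℝ) : Prop :=
  x ∈ multibrotSet n ∧ y ∈ multibrotSet n ∧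
    ∀ S : Set ℂ, S ⊆ multibrotSet n → IsPreconnected S → x ∈ S → y ∈ S → D ≤ Metric.diam S

/-- The critical point `0` of `z ^ n + c` is periodic of exact period `m`. -/
def Superattracting (n m : ℕ) (c : ℂ) : Prop :=
  (fun z : ℂ => z ^ n + c)^[m] 0 = 0 ∧
    ∀ j, 1 ≤ j → j < m → (fun z : ℂ => z ^ n + c)^[j] 0 ≠ 0

/-- The product of `n` and all its truncated iterated logarithms: `n · ℓ₁ · ℓ₂ ⋯` with
`ℓ₁ = max 1 (log n)`, `ℓ₂ = max 1 (log ℓ₁)`, and so on. All the factors from some index on are `1`;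
`n + 1` factors are enough. -/
noncomputable def Lam (n : ℕ) : ℝ :=
  ∏ j ∈ Finset.range (n + 1), (fun x : ℝ => max 1 (Real.log x))^[j] (n : ℝ)

/-- Lower bounds for the modulus of local connectivity of the Multibrot sets `M_n` at all scales,
uniformly in `n`. Here `modulus M_n δ` is the supremum over all points `x, y` of `M_n` with
`|x - y| ≤ δ` of the infimum of the diameters of the continua in `M_n` through `x` and `y`.

(1) Coarse scales. Let `k ≥ 1` and `n ≥ exp^[k] 5` (so that `log^[k] n ≥ 5`). Then there is a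
non-real `x` such that `x` and `conj x` are superattracting parameters of exact period `k + 1` at
distance at most `8 / ((n - 1) log n · log log n ⋯ log^[k - 1] n)`, and every connected subset of
`M_n` containing both has diameter at least `log^[k] n / (n - 1)`.
(2) Fine scales. For every `n ≥ 2` and `t ∈ (0, 1]` there is a non-real `x ∈ M_n` such that
`|x - conj x| ≤ t ^ (3/2) / Lam n`, and every connected subset of `M_n` containing `x` and `conj x`
has diameter at least `c t / n`. The constant `c > 0` is absolute.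
(3) Hence `modulus M_n δ` is at least `log^[k] n / (n - 1)` when `n ≥ exp^[k] 5` and
`δ ≥ 8 / ((n - 1) log n · log log n ⋯ log^[k - 1] n)`, `k ≥ 1`, and at least
`c (δ Lam n) ^ (2/3) / n` when `n ≥ 2` and `0 < δ ≤ 1 / Lam n`. -/
theorem result :
    ∃ c : ℝ, 0 < c ∧
      (∀ n k : ℕ, 1 ≤ k → Real.exp^[k] 5 ≤ (n : ℝ) → ∃ x : ℂ, x ≠ (starRingEnd ℂ) x ∧
        Superattracting n (k + 1) x ∧ Superattracting n (k + 1) ((starRingEnd ℂ) x) ∧
        dist x ((starRingEnd ℂ) x) ≤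
          8 / (((n : ℝ) - 1) * ∏ j ∈ Finset.range (k - 1), Real.log^[j + 1] (n : ℝ)) ∧
        NeedDiam n x ((starRingEnd ℂ) x) (Real.log^[k] (n : ℝ) / ((n : ℝ) - 1))) ∧
      (∀ n : ℕ, 2 ≤ n → ∀ t : ℝ, 0 < t → t ≤ 1 → ∃ x : ℂ, x ≠ (starRingEnd ℂ) x ∧
        dist x ((starRingEnd ℂ) x) ≤ t ^ (3 / 2 : ℝ) / Lam n ∧
        NeedDiam n x ((starRingEnd ℂ) x) (c * t / n)) ∧
      (∀ n : ℕ, 2 ≤ n → ∀ δ : ℝ, 0 < δ →
        (∀ k : ℕ, 1 ≤ k → Real.exp^[k] 5 ≤ (n : ℝ) →
          8 / (((n : ℝ) - 1) * ∏ j ∈ Finset.range (k - 1), Real.log^[j + 1] (n : ℝ)) ≤ δ →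
          Real.log^[k] (n : ℝ) / ((n : ℝ) - 1) ≤ N228.LC.modulus (multibrotSet n) δ) ∧
        (δ * Lam n ≤ 1 →
          c * (δ * Lam n) ^ (2 / 3 : ℝ) / n ≤ N228.LC.modulus (multibrotSet n) δ)) := by
  have h1 : ∀ n k : ℕ, 1 ≤ k → Real.exp^[k] 5 ≤ (n : ℝ) → ∃ x : ℂ, x ≠ (starRingEnd ℂ) x ∧
        Superattracting n (k + 1) x ∧ Superattracting n (k + 1) ((starRingEnd ℂ) x) ∧
        dist x ((starRingEnd ℂ) x) ≤
          8 / (((n : ℝ) - 1) * ∏ j ∈ Finset.range (k - 1), Real.log^[j + 1] (n : ℝ)) ∧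
        NeedDiam n x ((starRingEnd ℂ) x) (Real.log^[k] (n : ℝ) / ((n : ℝ) - 1)) := by
    intro n k hk hn
    obtain ⟨x, hP, hPne, hne, hd, hS⟩ := Run7.h734.LC.all_levels hk hn
    have hP' : H712R2.P n (k + 1) ((starRingEnd ℂ) x) = 0 := by
      rw [N228.LC.P_conj, hP, map_zero]
    refine ⟨x, hne, ⟨hP, fun j hj1 hj2 => hPne j hj1 (by omega)⟩, ⟨hP', ?_⟩, hd,
      N228.LC.mem_of_period (by omega) hP, N228.LC.mem_of_period (by omega) hP', hS⟩
    intro j hj1 hj2 h0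
    apply hPne j hj1 (by omega)
    have h2 : H712R2.P n j ((starRingEnd ℂ) x) = 0 := h0
    rw [N228.LC.P_conj] at h2
    simpa using h2
  refine ⟨Run7.h734.LC.C1, Run7.h734.LC.C1_pos, h1, ?_, ?_⟩
  · intro n hn t ht0 ht1
    obtain ⟨x, hx, hne, hd, hS⟩ := Run7.h734.LC.fine_points hn ht0 ht1
    refine ⟨x, hne, ?_, hx, Run7.h734.LC.conj_mem hn hx, hS⟩
    have h1 : t * Real.sqrt t = t ^ (3 / 2 : ℝ) := by
      rw [Real.sqrt_eq_rpow]
      nth_rewrite 1 [← Real.rpow_one t]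
      rw [← Real.rpow_add ht0]
      norm_num
    rw [← h1]
    exact hd
  · intro n hn δ hδ0
    refine ⟨?_, fun hδ => Run7.h734.LC.fine_modulus hn hδ0 hδ⟩
    intro k hk hnk hδ
    obtain ⟨x, -, -, -, hd, hx, hy, hS⟩ := h1 n k hk hnk
    exact (N228.LC.le_joining hn hx hy hS).trans (N228.LC.le_modulus hn hx hy (hd.trans hδ))

end Pool.Agent.Results.MP_fcb70f_an.AllScalesModulus
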