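import Mathlib
import Pool.Prelude.Def_F_c31e40fa
import Pool.Agent.Run7.h991.DP.MB

set_option autoImplicit false

/-!
# Local connectivity of the Multibrot sets is decided at the good deep parameters

Let `d ≥ 3` and let `M` be the Multibrot set of degree `d`, with exterior map `ψ`. The starting file
`IsolatedParameters` shows that local connectivity of `M` is decided at its good boundary parameters.
Here we show that `M` is locally connected if and only if no good boundary parameter is deep: there
are no good `c` and points `z` outside `M` tending to `c`, with Green's function `s` tending to `0` and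
distance at least `1 / H(log(1/s))` from `M`, whose external rays reach a definite distance from `c`
between `z` and `M`. Here `H` is any gauge, for example `H x = (1 + |x|) ^ a` with `a > 1`; so `s` is
at most about `exp(-(1/dist(z, M))^(1/a))`, and the critical orbit of `z` remains bounded for a number
of iterations which is at least about `(1/dist(z, M))^(1/a)`.

The same holds for each angle: the impression of the external ray is a point if and only if no good
boundary parameter is deep along this angle. And around a point at which `M` is not locally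
connected, almost every small circle contains good deep parameters.
-/

open Filter Topology Set Metric MeasureTheory Complex N62a1eb23

namespace Pool.Agent.Results.MP_fcb70f_an.DeepParameters

open Pool.Agent.H713R2 Run7.h991.DP
open Pool.Agent.Results.MP_fcb70f_an.IsolatedParameters (Good LocallyConnectedAt)

/-- **Local connectivity of the Multibrot sets is decided at the good deep parameters.** -/
theorem result (d : ℕ) (hd : 3 ≤ d) :
    (∃ ψ : ℂ → ℂ, IsExteriorMap (multibrotSet d) ψ) ∧
    (∀ a : ℝ, 1 < a → Gauge fun x => (1 + |x|) ^ a) ∧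
    ∃ K : ℝ, 0 < K ∧ ∀ ψ : ℂ → ℂ, IsExteriorMap (multibrotSet d) ψ →
      (∀ p : ℂ, ¬ LocallyConnectedAt (multibrotSet d) p → ∃ θ₀ : ℝ, p ∈ Impression ψ θ₀ ∧
        ∃ ε : ℝ, 0 < ε ∧ ∀ H : ℝ → ℝ, Gauge H → ∀ᵐ u : ℝ, 0 < u → u < ε →
          ∃ c ∈ frontier (multibrotSet d), dist c p = u ∧ Good d K ψ c ∧
            Deep (multibrotSet d) ψ H θ₀ c) ∧
      ∀ H : ℝ → ℝ, Gauge H →
        (LocallyConnectedSpace (multibrotSet d) ↔ ∀ θ₀ : ℝ, ∀ c ∈ frontier (multibrotSet d),
          Good d K ψ c → ¬ Deep (multibrotSet d) ψ H θ₀ c) ∧
        (∀ θ₀ : ℝ, (Impression ψ θ₀).Subsingleton ↔ ∀ c ∈ frontier (multibrotSet d),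
          Good d K ψ c → ¬ Deep (multibrotSet d) ψ H θ₀ c) ∧
        ∀ (θ₀ : ℝ) (c : ℂ), Deep (multibrotSet d) ψ H θ₀ c →
          c ∈ Impression ψ θ₀ ∧ ¬ LocallyConnectedAt (multibrotSet d) c := by
  have hd2 : 2 ≤ d := by omega
  obtain ⟨β, hβ⟩ := exists_beta (d := d) hd2
  refine ⟨⟨_, exteriorMap_of_beta hβ⟩, fun a ha => gauge_rpow ha, Pool.Agent.R240.Res.KR,
    Pool.Agent.R240.Res.KR_pos, ?_⟩
  intro ψ hψ
  exact mb_main hd2 hψ

end Pool.Agent.Results.MP_fcb70f_an.DeepParameters
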