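import Mathlib
import Pool.Prelude.Def_F_c31e40fa
import Pool.Agent.Run7.h275.EJ10

set_option autoImplicit false

open Filter Topology N62a1eb23

namespace Pool.Agent.Results.MP_fcb70f_an.EnergyJumps

open Pool.Agent.H713R2

/-- The coefficients `s m`, `m ≥ 0`, of the nonpositive powers in the Laurent series of `S ∘ ψ` on
`‖z‖ > 1` (`R` collects the positive powers; the value of `s 0` depends on the choice of the
constant term of `R` and plays no role below). -/
def IsTail (ψ : ℂ → ℂ) (S R : Polynomial ℂ) (s : ℕ → ℂ) : Prop :=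
  ∀ z : ℂ, 1 < ‖z‖ → HasSum (fun m : ℕ => s m / z ^ m) (S.eval (ψ z) - R.eval z)

/-- The energy jump at `N` in the window of length `K`: the truncated discrete Hilbert transform
at `N` of the sequence `m ^ 2 * ‖s m‖ ^ 2`. -/
noncomputable def jump (s : ℕ → ℂ) (N K : ℕ) : ℝ :=
  ∑ k ∈ Finset.Icc 1 K, ((((N - k : ℕ) : ℝ) * ‖s (N - k)‖) ^ 2 -
    (((N + k : ℕ) : ℝ) * ‖s (N + k)‖) ^ 2) / (k : ℝ)

/-- The `(n + 1)`-st point of the critical orbit of `z ^ d + c`, a polynomial of degree `d ^ n`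
in `c`. -/
def crit (d n : ℕ) (c : ℂ) : ℂ := (fun z => z ^ d + c)^[n + 1] 0

/-- For the exterior conformal map `ψ` of the multibrot set of degree `d ≥ 3`, every polynomial `S`
and every `1 ≤ a < d`, the energy jump of the Laurent coefficients of `S ∘ ψ` at `a * d ^ n` is, in
every window of length `δ d ^ n`, equal to the mean of `|crit n| ^ (2 a) |S'|²` over the multibrot
set (with respect to area divided by `π`) up to `o(1)`. For `S = X` this mean is at least
`r ^ (2 a + 2) * (1 / (a + 1) + 1 / (a + d))`, where `r > 0` and `d * r ^ (d - 1) = 1`. -/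
theorem result (d : ℕ) (hd : 3 ≤ d) :
    (∃ ψ : ℂ → ℂ, IsExteriorMap (multibrotSet d) ψ) ∧
    (∀ ψ : ℂ → ℂ, IsExteriorMap (multibrotSet d) ψ →
      ∀ (S R : Polynomial ℂ) (s : ℕ → ℂ), IsTail ψ S R s →
      ∀ a : ℕ, 1 ≤ a → a < d → ∀ δ : ℝ, 0 < δ → δ < 1 →
      Tendsto (fun n : ℕ => jump s (a * d ^ n) ⌊δ * (d : ℝ) ^ n⌋₊ -
        1 / Real.pi * ∫ c in multibrotSet d, ‖crit d n c‖ ^ (2 * a) *
          ‖(Polynomial.derivative S).eval c‖ ^ 2) atTop (𝓝 0)) ∧
    ∀ r : ℝ, 0 < r → (d : ℝ) * r ^ (d - 1) = 1 → ∀ a n : ℕ, 1 ≤ n →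
      r ^ (2 * (a + 1)) * (1 / ((a : ℝ) + 1) + 1 / ((a : ℝ) + d)) ≤
        1 / Real.pi * ∫ c in multibrotSet d, ‖crit d n c‖ ^ (2 * a) := by
  have hd2 : 2 ≤ d := by omega
  obtain ⟨β, hβ⟩ := exists_beta hd2
  refine ⟨⟨_, exteriorMap_of_beta hβ⟩, ?_, ?_⟩
  · intro ψ hψ S R s hs a ha had δ hδ hδ1
    exact Run7.h275.EJ.energy_jump hd2 hψ (S := S) (R := R) (s := s) hs ha had hδ hδ1
  · intro r hr hdr a n hn
    have h := Run7.h275.EJ.II_lower hd2 hr hdr hn a
    have e : Run7.h275.EJ.II d Polynomial.X a n =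
        1 / Real.pi * ∫ c in multibrotSet d, ‖crit d n c‖ ^ (2 * a) := by
      unfold Run7.h275.EJ.II
      simp only [Polynomial.derivative_X, Polynomial.eval_one, norm_one, one_pow, mul_one]
      rfl
    rw [← e]
    exact h

end Pool.Agent.Results.MP_fcb70f_an.EnergyJumps
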